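import Pool.Agent.Helper83.CO.St

/-!
# Project CO (MP_140278_ag), module NEA: a nef b-divisor without defect is linear on `D`
-/

set_option autoImplicit false

open scoped BigOperators
open MvPolynomial

namespace Pool.Agent.Helper8.CO

open Pool.Agent.Helper53.CX Pool.Agent.Helper83.CO

theorem nea_bound (hTRM : StTRM) (hCOR : StCOR) (k : ℕ) (P : Finset ℂ)
    (D : Finset (Option ℂ × (Fin (k + 1) → ℤ))) (A : Adm P D) (M : DivVal (Kn (k + 1)) → ℤ)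
    (hC : IsC1 P D) (hN : NormNef M) (hL : A.Lam M ≤ 0) :
    ∃ C : ℤ, 0 ≤ C ∧ ∀ m : ℕ, 1 ≤ m → ∃ (N : ℕ) (t : (Option ℂ → ℤ) × (Fin k → ℤ)), 1 ≤ N ∧
      |∑ s ∈ crit P, t.1 s| ≤ N * C ∧
        ∀ e ∈ D, |pr e.2 (t.1 e.1) t.2 + N * m * M (A.vd e)| ≤ N * C := by
  obtain ⟨-, A₁, hA₁, hm⟩ := hN
  obtain ⟨a, ha⟩ : ∃ a : ℤ, a = A.Lam A₁.div := ⟨_, rfl⟩
  obtain ⟨B, hB⟩ : ∃ B : ℤ, B = ∑ e ∈ D, |A₁.div (A.vd e)| := ⟨_, rfl⟩
  have hB0 : 0 ≤ B := by rw [hB]; exact Finset.sum_nonneg fun e _ => abs_nonneg _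
  have hBe : ∀ e ∈ D, |A₁.div (A.vd e)| ≤ B := by
    intro e he
    rw [hB]
    exact Finset.single_le_sum (f := fun e => |A₁.div (A.vd e)|) (fun e _ => abs_nonneg _) he
  have haa := le_abs_self a
  have haa0 := abs_nonneg a
  refine ⟨2 * |a| + B, by linarith, ?_⟩
  intro m hm1
  obtain ⟨N, F, hN1, hFL, hF⟩ := hm m hm1
  obtain ⟨f, hf, hfe⟩ := Finset.exists_mem_eq_sup' F.nonempty (fun f => - A.v'.ord f)
  have hfv : F.div A.v' = - A.v'.ord f := hfe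
  have hf0 := F.ne_zero f hf
  obtain ⟨T, hT⟩ := hTRM k P f hC.zero (hFL f hf) hf0
  obtain ⟨t, -, h1, h2, h3⟩ := hCOR k P D A f T hC hT
  have hNz : (1 : ℤ) ≤ N := by exact_mod_cast hN1
  -- the numbers `r`
  obtain ⟨r, hr⟩ : ∃ r : Option ℂ × (Fin (k + 1) → ℤ) → ℤ,
      r = fun e => F.div (A.vd e) + (A.vd e).ord f := ⟨_, rfl⟩
  obtain ⟨q, hq⟩ : ∃ q : Option ℂ × (Fin (k + 1) → ℤ) → ℤ,
      q = fun e => pr e.2 (t.1 e.1) t.2 - (A.vd e).ord f := ⟨_, rfl⟩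
  have hr0 : ∀ e, 0 ≤ r e := by
    intro e
    have h : - (A.vd e).ord f ≤ F.div (A.vd e) :=
      Finset.le_sup' (fun f => - (A.vd e).ord f) hf
    rw [hr]
    show 0 ≤ F.div (A.vd e) + (A.vd e).ord f
    linarith
  have hq0 : ∀ e ∈ D, 0 ≤ q e := by
    intro e he
    rw [hq]
    exact h3 e he
  have hla : ∀ e ∈ D, (1 : ℤ) ≤ A.la e := fun e he => by exact_mod_cast A.hla e he
  have hd : (1 : ℤ) ≤ A.d := by exact_mod_cast A.hd
  have e1 : ∑ e ∈ D, (A.la e : ℤ) * F.div (A.vd e) =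
      N * (m * ∑ e ∈ D, (A.la e : ℤ) * M (A.vd e) + ∑ e ∈ D, (A.la e : ℤ) * A₁.div (A.vd e)) := by
    rw [Finset.mul_sum, ← Finset.sum_add_distrib, Finset.mul_sum]
    refine Finset.sum_congr rfl fun e _ => ?_
    rw [← hF]
    ring
  have e2 : A.Lam F.div = N * (m * A.Lam M + a) := by
    rw [ha]
    unfold Adm.Lam
    rw [e1, ← hF A.v']
    ring
  have e3 : A.Lam F.div ≤ N * |a| := by
    rw [e2]
    have h4 : (m : ℤ) * A.Lam M ≤ 0 := mul_nonpos_of_nonneg_of_nonpos (by positivity) hL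
    have h5 : (m : ℤ) * A.Lam M + a ≤ |a| := by linarith
    exact mul_le_mul_of_nonneg_left h5 (by positivity)
  have e4 : ∑ e ∈ D, (A.la e : ℤ) * r e = A.Lam F.div + A.Lam (fun v => v.ord f) := by
    have h4 : ∑ e ∈ D, (A.la e : ℤ) * r e = ∑ e ∈ D, (A.la e : ℤ) * F.div (A.vd e) +
        ∑ e ∈ D, (A.la e : ℤ) * (A.vd e).ord f := by
      rw [← Finset.sum_add_distrib]
      refine Finset.sum_congr rfl fun e _ => ?_
      rw [hr]
      ring
    rw [h4]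
    unfold Adm.Lam
    rw [hfv]
    ring
  have e5 : A.Lam (fun v => v.ord f) = A.d * ∑ s ∈ crit P, t.1 s - ∑ e ∈ D, (A.la e : ℤ) * q e := by
    rw [h1, hq]
  obtain ⟨σ, hσ⟩ : ∃ σ : ℤ, σ = ∑ s ∈ crit P, t.1 s := ⟨_, rfl⟩
  rw [← hσ] at e5 h2
  have hsr : 0 ≤ ∑ e ∈ D, (A.la e : ℤ) * r e :=
    Finset.sum_nonneg fun e _ => mul_nonneg (by positivity) (hr0 e)
  have hsq : 0 ≤ ∑ e ∈ D, (A.la e : ℤ) * q e :=
    Finset.sum_nonneg fun e he => mul_nonneg (by positivity) (hq0 e he)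
  have hdσ : (A.d : ℤ) * σ ≤ σ := by nlinarith
  have hre : ∀ e ∈ D, r e ≤ N * |a| := by
    intro e he
    have h4 : (A.la e : ℤ) * r e ≤ ∑ e ∈ D, (A.la e : ℤ) * r e :=
      Finset.single_le_sum (f := fun e => (A.la e : ℤ) * r e)
        (fun e _ => mul_nonneg (by positivity) (hr0 e)) he
    have h5 : r e ≤ (A.la e : ℤ) * r e := by nlinarith [hla e he, hr0 e]
    linarith
  have hqe : ∀ e ∈ D, q e ≤ N * |a| := by
    intro e he
    have h4 : (A.la e : ℤ) * q e ≤ ∑ e ∈ D, (A.la e : ℤ) * q e :=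
      Finset.single_le_sum (f := fun e => (A.la e : ℤ) * q e)
        (fun e he => mul_nonneg (by positivity) (hq0 e he)) he
    have h5 : q e ≤ (A.la e : ℤ) * q e := by nlinarith [hla e he, hq0 e he]
    linarith
  have hNB : 0 ≤ (N : ℤ) * B := mul_nonneg (by positivity) hB0
  have hNa : 0 ≤ (N : ℤ) * |a| := mul_nonneg (by positivity) haa0
  refine ⟨N, t, hN1, ?_, ?_⟩
  · rw [← hσ, abs_of_nonpos h2]
    have h4 : - σ ≤ N * |a| := by linarith
    have h5 : (N : ℤ) * (2 * |a| + B) = 2 * (N * |a|) + N * B := by ring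
    rw [h5]
    linarith
  · intro e he
    have h4 : pr e.2 (t.1 e.1) t.2 + N * m * M (A.vd e) = q e + r e - N * A₁.div (A.vd e) := by
      rw [hq, hr]
      show _ = pr e.2 (t.1 e.1) t.2 - (A.vd e).ord f + (F.div (A.vd e) + (A.vd e).ord f) -
        N * A₁.div (A.vd e)
      rw [← hF]
      ring
    have h5 : |(N : ℤ) * A₁.div (A.vd e)| ≤ N * B := by
      rw [abs_mul, abs_of_nonneg (by positivity : (0 : ℤ) ≤ N)]
      exact mul_le_mul_of_nonneg_left (hBe e he) (by positivity)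
    have h6 : (N : ℤ) * (2 * |a| + B) = 2 * (N * |a|) + N * B := by ring
    have h7 := abs_le.1 h5
    have h8 := hre e he
    have h9 := hqe e he
    have h10 := hr0 e
    have h11 := hq0 e he
    rw [h4, h6, abs_le]
    exact ⟨by linarith [h7.2], by linarith [h7.1]⟩

/-- the linear map of the values -/
noncomputable def neaL (k : ℕ) (P : Finset ℂ) (D : Finset (Option ℂ × (Fin (k + 1) → ℤ))) :
    ((Option ℂ → ℝ) × (Fin k → ℝ)) →ₗ[ℝ] (({e // e ∈ D} → ℝ) × ℝ) where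
  toFun z := (fun e => prR e.1.2 (z.1 e.1.1) z.2, ∑ s ∈ crit P, z.1 s)
  map_add' z z' := by
    refine Prod.ext (funext fun e => ?_) ?_
    · show prR e.1.2 (z.1 e.1.1 + z'.1 e.1.1) (fun j => z.2 j + z'.2 j) =
        prR e.1.2 (z.1 e.1.1) z.2 + prR e.1.2 (z'.1 e.1.1) z'.2
      unfold prR
      have h : ∑ j, ((e.1.2 (Fin.succ j) : ℤ) : ℝ) * (z.2 j + z'.2 j) =
          ∑ j, ((e.1.2 (Fin.succ j) : ℤ) : ℝ) * z.2 j + ∑ j, ((e.1.2 (Fin.succ j) : ℤ) : ℝ) * z'.2 j := by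
        rw [← Finset.sum_add_distrib]
        exact Finset.sum_congr rfl fun j _ => by ring
      rw [h]
      ring
    · show ∑ s ∈ crit P, (z.1 s + z'.1 s) = ∑ s ∈ crit P, z.1 s + ∑ s ∈ crit P, z'.1 s
      exact Finset.sum_add_distrib
  map_smul' c z := by
    refine Prod.ext (funext fun e => ?_) ?_
    · show prR e.1.2 (c * z.1 e.1.1) (fun j => c * z.2 j) = c * prR e.1.2 (z.1 e.1.1) z.2
      unfold prR
      have h : ∑ j, ((e.1.2 (Fin.succ j) : ℤ) : ℝ) * (c * z.2 j) =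
          c * ∑ j, ((e.1.2 (Fin.succ j) : ℤ) : ℝ) * z.2 j := by
        rw [Finset.mul_sum]
        exact Finset.sum_congr rfl fun j _ => by ring
      rw [h]
      ring
    · show ∑ s ∈ crit P, c * z.1 s = c * ∑ s ∈ crit P, z.1 s
      rw [Finset.mul_sum]

theorem hNEA (hTRM : StTRM) (hCOR : StCOR) : StNEA := by
  intro k P D A M hC hN hL
  obtain ⟨C, hC0, hb⟩ := nea_bound hTRM hCOR k P D A M hC hN hL
  have hcl : IsClosed ((LinearMap.range (neaL k P D) : Submodule ℝ (({e // e ∈ D} → ℝ) × ℝ)) :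
      Set (({e // e ∈ D} → ℝ) × ℝ)) := Submodule.closed_of_finiteDimensional _
  obtain ⟨y, hy⟩ : ∃ y : ({e // e ∈ D} → ℝ) × ℝ, y = (fun e => - (M (A.vd e.1) : ℝ), 0) :=
    ⟨_, rfl⟩
  have hmem : y ∈ closure ((LinearMap.range (neaL k P D) : Submodule ℝ (({e // e ∈ D} → ℝ) × ℝ)) :
      Set (({e // e ∈ D} → ℝ) × ℝ)) := by
    rw [Metric.mem_closure_iff]
    intro ε hε
    obtain ⟨m₀, hm₀⟩ := exists_nat_gt ((C : ℝ) / ε)
    obtain ⟨m, hmdef⟩ : ∃ m : ℕ, m = m₀ + 1 := ⟨_, rfl⟩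
    have hm1 : 1 ≤ m := by omega
    have hmR : (0 : ℝ) < m := by exact_mod_cast hm1
    have hCm : (C : ℝ) / m < ε := by
      rw [div_lt_iff₀ hmR]
      rw [div_lt_iff₀ hε] at hm₀
      have : (m : ℝ) = m₀ + 1 := by rw [hmdef]; push_cast; ring
      rw [this]
      nlinarith
    obtain ⟨N, t, hN1, hs, he⟩ := hb m hm1
    have hNR : (0 : ℝ) < N := by exact_mod_cast hN1
    have hNm : (0 : ℝ) < N * m := mul_pos hNR hmR
    refine ⟨neaL k P D (fun s => (t.1 s : ℝ) / (N * m), fun j => (t.2 j : ℝ) / (N * m)),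
      ⟨_, rfl⟩, ?_⟩
    have hCm0 : 0 ≤ (C : ℝ) / m := div_nonneg (by exact_mod_cast hC0) hmR.le
    refine lt_of_le_of_lt ?_ hCm
    rw [Prod.dist_eq]
    refine max_le ?_ ?_
    · rw [dist_pi_le_iff hCm0]
      intro e
      have h1 := he e.1 e.2
      have h2 : |((pr e.1.2 (t.1 e.1.1) t.2 : ℤ) : ℝ) + N * m * (M (A.vd e.1) : ℝ)| ≤ N * (C : ℝ) := by
        exact_mod_cast h1
      have h3 : prR e.1.2 ((t.1 e.1.1 : ℝ) / (N * m)) (fun j => (t.2 j : ℝ) / (N * m)) =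
          ((pr e.1.2 (t.1 e.1.1) t.2 : ℤ) : ℝ) / (N * m) := by
        unfold prR pr
        push_cast
        rw [add_div, Finset.sum_div, mul_div_assoc]
        congr 1
        exact Finset.sum_congr rfl fun j _ => by rw [mul_div_assoc]
      show dist (y.1 e) (prR e.1.2 ((t.1 e.1.1 : ℝ) / (N * m)) (fun j => (t.2 j : ℝ) / (N * m))) ≤ _
      rw [h3, hy, Real.dist_eq]
      show |-(M (A.vd e.1) : ℝ) - ((pr e.1.2 (t.1 e.1.1) t.2 : ℤ) : ℝ) / (N * m)| ≤ _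
      have h4 : -(M (A.vd e.1) : ℝ) - ((pr e.1.2 (t.1 e.1.1) t.2 : ℤ) : ℝ) / (N * m) =
          -((((pr e.1.2 (t.1 e.1.1) t.2 : ℤ) : ℝ) + N * m * (M (A.vd e.1) : ℝ)) / (N * m)) := by
        field_simp
        ring
      rw [h4, abs_neg, abs_div, abs_of_pos hNm, div_le_div_iff₀ hNm hmR]
      nlinarith
    · have h2 : |((∑ s ∈ crit P, t.1 s : ℤ) : ℝ)| ≤ N * (C : ℝ) := by exact_mod_cast hs
      have h3 : ∑ s ∈ crit P, (t.1 s : ℝ) / (N * m) = ((∑ s ∈ crit P, t.1 s : ℤ) : ℝ) / (N * m) := by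
        push_cast
        rw [Finset.sum_div]
      show dist y.2 (∑ s ∈ crit P, (t.1 s : ℝ) / (N * m)) ≤ _
      rw [h3, hy, Real.dist_eq]
      show |0 - ((∑ s ∈ crit P, t.1 s : ℤ) : ℝ) / (N * m)| ≤ _
      rw [zero_sub, abs_neg, abs_div, abs_of_pos hNm, div_le_div_iff₀ hNm hmR]
      nlinarith
  rw [hcl.closure_eq] at hmem
  obtain ⟨z, hz⟩ := hmem
  refine ⟨z.1, z.2, ?_, ?_⟩
  · have h := congrArg Prod.snd hz
    rw [hy] at h
    exact h
  · intro e he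
    have h := congrFun (congrArg Prod.fst hz) ⟨e, he⟩
    rw [hy] at h
    have h' : prR e.2 (z.1 e.1) z.2 = - (M (A.vd e) : ℝ) := h
    rw [h', neg_neg]

end Pool.Agent.Helper8.CO
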